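import Pool.Agent.Helper6.O3.St

/-!
# Project O3 (MP_d49380_lc): module CK, finite certificates
-/

set_option autoImplicit false

namespace Pool.Agent.Helper38.O3

open Pool.Agent.Helper6.O3 Filter Topology
open Pool.Agent.Helper99.DF (T TL sq chk Cert ver StVER StTRA StCMP StSND StPR1 StPRC StVP
  sq_TL_iter sq_ge)
open Pool.Agent.Helper90.DF (NN sq_mem)

theorem hCK (hSND : StSND) (hCMP : StCMP) : StCK := by
  constructor
  · intro L t c h i k
    obtain ⟨hchk, hNN⟩ := h
    rcases lt_or_ge i t with hit | hit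
    · rw [← sq_TL_iter]
      rcases lt_or_ge k (TL^[i] L).length with hm | hm
      · exact hNN i hit _ (sq_mem hm)
      · rw [sq_ge _ _ hm]
    · obtain ⟨j, rfl⟩ := Nat.exists_eq_add_of_le' hit
      rw [Function.iterate_add_apply, ← sq_TL_iter L t]
      exact hSND _ c hchk j k
  · intro L h0 hI
    obtain ⟨t, c, hc⟩ := hCMP L h0 hI
    refine ⟨t, c, hc, ?_⟩
    intro j _ z hz
    obtain ⟨i, hi, rfl⟩ := List.getElem_of_mem hz
    have h := hI j i
    rw [← sq_TL_iter] at h
    unfold Pool.Agent.Helper99.DF.sq at h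
    rwa [List.getD_eq_getElem _ _ hi] at h

end Pool.Agent.Helper38.O3
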